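import Pool.Agent.Helper72.FX.StK

/-!
# Project FX, module TRF: transfer of `ZZ` along a birational ring map
-/

set_option autoImplicit false

namespace Pool.Agent.Helper7.FX

open Pool.Agent.Helper72.FX TensorProduct

noncomputable section

section one

variable {C : Type} [CommRing C] {IC : Ideal C} {Λ : Type} [AddCommGroup Λ]

/-- vanishing on the modules killed by a power -/
theorem pw [IsNoetherianRing C] (χ : AF C (kil IC) Λ) (z : C)
    (hv : ∀ (N : Type) [AddCommGroup N] [Module C N], Module.Finite C N → kil IC N →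
      (∀ y : N, z • y = 0) → χ.f N = 0) (k : ℕ) :
    ∀ (N : Type) [AddCommGroup N] [Module C N], Module.Finite C N → kil IC N →
      (∀ y : N, z ^ k • y = 0) → χ.f N = 0 := by
  induction k with
  | zero =>
    intro N _ _ hf hk h
    refine hv N hf hk fun y => ?_
    have := h y
    rw [pow_zero, one_smul] at this
    rw [this, smul_zero]
  | succ k ih =>
    intro N _ _ hf hk h
    have hg := gd_kil IC
    rw [χ.quot (LinearMap.range (LinearMap.lsmul C N z)) hf hk]
    have hn : IsNoetherian C N := isNoetherian_of_isNoetherianRing_of_finite C N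
    have h1 : χ.f (LinearMap.range (LinearMap.lsmul C N z)) = 0 := by
      refine ih _ (Module.IsNoetherian.finite C _)
        (hg.inj _ N (LinearMap.range (LinearMap.lsmul C N z)).subtype
          (Submodule.injective_subtype _) hk) ?_
      rintro ⟨y, w, rfl⟩
      apply Subtype.ext
      change z ^ k • (z • w) = 0
      rw [smul_smul, ← pow_succ]
      exact h w
    have h2 : χ.f (N ⧸ LinearMap.range (LinearMap.lsmul C N z)) = 0 := by
      refine hv _ inferInstance (hg.surj N _ (Submodule.mkQ _) (Submodule.mkQ_surjective _) hk) ?_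
      intro y
      obtain ⟨w, rfl⟩ := Submodule.mkQ_surjective _ y
      rw [← map_smul]
      exact (Submodule.Quotient.mk_eq_zero _).2 ⟨w, rfl⟩
    rw [h1, h2, add_zero]

/-- elementwise power torsion is uniform -/
theorem unif [IsNoetherianRing C] (z : C) (N : Type) [AddCommGroup N] [Module C N]
    (hf : Module.Finite C N) (h : ∀ y : N, ∃ k : ℕ, z ^ k • y = 0) :
    ∃ k : ℕ, ∀ y : N, z ^ k • y = 0 := by
  have hn : IsNoetherian C N := isNoetherian_of_isNoetherianRing_of_finite C N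
  let F : ℕ →o Submodule C N :=
    { toFun := fun k => LinearMap.ker (LinearMap.lsmul C N (z ^ k))
      monotone' := by
        intro a b hab y hy
        change z ^ b • y = 0
        have hy' : z ^ a • y = 0 := hy
        obtain ⟨c, rfl⟩ := Nat.exists_eq_add_of_le hab
        rw [add_comm, pow_add, mul_smul, hy', smul_zero] }
  obtain ⟨n, hn'⟩ := monotone_stabilizes_iff_noetherian.2 hn F
  refine ⟨n, fun y => ?_⟩
  obtain ⟨k, hk⟩ := h y
  have h1 : y ∈ F (max n k) := by
    change z ^ (max n k) • y = 0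
    obtain ⟨c, hc⟩ := Nat.exists_eq_add_of_le (le_max_right n k)
    rw [hc, add_comm, pow_add, mul_smul, hk, smul_zero]
  rw [← hn' _ (le_max_left n k)] at h1
  exact h1

theorem pw' [IsNoetherianRing C] (χ : AF C (kil IC) Λ) (z : C)
    (hv : ∀ (N : Type) [AddCommGroup N] [Module C N], Module.Finite C N → kil IC N →
      (∀ y : N, z • y = 0) → χ.f N = 0)
    (N : Type) [AddCommGroup N] [Module C N] (hf : Module.Finite C N) (hk : kil IC N)
      (h : ∀ y : N, ∃ k : ℕ, z ^ k • y = 0) : χ.f N = 0 := by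
  obtain ⟨k, hk'⟩ := unif z N hf h
  exact pw χ z hv k N hf hk hk'

end one

section two

variable {B C : Type} [CommRing B] [CommRing C] [Algebra B C] {IB : Ideal B} {IC : Ideal C} {x : B}

/-- the base change -/
abbrev TT (B : Type) {C : Type} [CommRing B] [CommRing C] [Algebra B C] (IC : Ideal C)
    (M : Type) [AddCommGroup M] [Module B M] : Type := (C ⧸ IC) ⊗[B] M

theorem alg_smul (M : Type) [AddCommGroup M] [Module B M] (b : B) (t : TT B IC M) :
    b • t = (algebraMap B C b) • t := (algebraMap_smul C b t).symm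

theorem kilT (M : Type) [AddCommGroup M] [Module B M] : kil IC (TT B IC M) := by
  intro c hc t
  induction t using TensorProduct.induction_on with
  | zero => rw [smul_zero]
  | add a b ha hb => rw [smul_add, ha, hb, add_zero]
  | tmul d m => rw [TensorProduct.smul_tmul', kil_quot IC c hc d, zero_tmul]

theorem finT (M : Type) [AddCommGroup M] [Module B M] (hf : Module.Finite B M) :
    Module.Finite C (TT B IC M) := by
  have : Module.Finite (C ⧸ IC) (TT B IC M) := Module.Finite.base_change B (C ⧸ IC) M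
  exact Module.Finite.trans (C ⧸ IC) (TT B IC M)

theorem rep (H1 : ∀ c : C, ∃ (k : ℕ) (b : B), (algebraMap B C x) ^ k * c - algebraMap B C b ∈ IC)
    (M : Type) [AddCommGroup M] [Module B M] (t : TT B IC M) :
    ∃ (k : ℕ) (m : M), x ^ k • t = (1 : C ⧸ IC) ⊗ₜ[B] m := by
  induction t using TensorProduct.induction_on with
  | zero => exact ⟨0, 0, by rw [smul_zero, tmul_zero]⟩
  | add a b ha hb =>
    obtain ⟨k, m, hk⟩ := ha
    obtain ⟨l, n, hl⟩ := hb
    refine ⟨k + l, x ^ l • m + x ^ k • n, ?_⟩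
    rw [smul_add, tmul_add, tmul_smul, tmul_smul, ← hk, ← hl, smul_smul, smul_smul,
      ← pow_add, ← pow_add, add_comm l k]
  | tmul d m =>
    obtain ⟨c, rfl⟩ := Ideal.Quotient.mk_surjective d
    obtain ⟨k, b, h⟩ := H1 c
    refine ⟨k, b • m, ?_⟩
    rw [tmul_smul, TensorProduct.smul_tmul', TensorProduct.smul_tmul']
    congr 1
    have h1 := Ideal.Quotient.eq.2 h
    rw [Algebra.smul_def, Algebra.smul_def, mul_one]
    rw [Ideal.Quotient.mk_algebraMap] at h1
    rw [map_mul, map_pow, Ideal.Quotient.mk_algebraMap] at h1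
    rw [map_pow]
    exact h1

/-- the composite `B ⧸ IB → C ⧸ IC → S⁻¹ (C ⧸ IC)` -/
def th (H0 : ∀ b ∈ IB, algebraMap B C b ∈ IC) : (B ⧸ IB) →ₗ[B] (C ⧸ IC) :=
  Submodule.liftQ IB (Algebra.linearMap B (C ⧸ IC)) (by
    intro b hb
    change (Ideal.Quotient.mk IC (algebraMap B C b)) = 0
    exact Ideal.Quotient.eq_zero_iff_mem.2 (H0 b hb))

theorem th_mk (H0 : ∀ b ∈ IB, algebraMap B C b ∈ IC) (b : B) :
    th H0 (Ideal.Quotient.mk IB b) = Ideal.Quotient.mk IC (algebraMap B C b) := rfl

theorem loc (H0 : ∀ b ∈ IB, algebraMap B C b ∈ IC)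
    (H1 : ∀ c : C, ∃ (k : ℕ) (b : B), (algebraMap B C x) ^ k * c - algebraMap B C b ∈ IC)
    (H2 : ∀ b : B, algebraMap B C b ∈ IC → ∃ k : ℕ, x ^ k * b ∈ IB) :
    IsLocalizedModule (Submonoid.powers x)
      ((LocalizedModule.mkLinearMap (Submonoid.powers x) (C ⧸ IC)) ∘ₗ th H0) where
  map_units := IsLocalizedModule.map_units
    (LocalizedModule.mkLinearMap (Submonoid.powers x) (C ⧸ IC))
  surj y := by
    obtain ⟨⟨d, s⟩, hd⟩ := IsLocalizedModule.surj (Submonoid.powers x)
      (LocalizedModule.mkLinearMap (Submonoid.powers x) (C ⧸ IC)) y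
    obtain ⟨c, rfl⟩ := Ideal.Quotient.mk_surjective d
    obtain ⟨k, b, h⟩ := H1 c
    refine ⟨⟨Ideal.Quotient.mk IB b, ⟨x ^ k, k, rfl⟩ * s⟩, ?_⟩
    rw [mul_smul, hd]
    change (x ^ k) • ((LocalizedModule.mkLinearMap (Submonoid.powers x) (C ⧸ IC))
      (Ideal.Quotient.mk IC c)) = _
    rw [← map_smul, LinearMap.comp_apply, th_mk]
    congr 1
    have h1 := Ideal.Quotient.eq.2 h
    rw [map_mul, map_pow] at h1
    rw [← h1, Algebra.smul_def, map_pow]
    rfl
  exists_of_eq {y z} h := by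
    obtain ⟨b, rfl⟩ := Ideal.Quotient.mk_surjective y
    obtain ⟨b', rfl⟩ := Ideal.Quotient.mk_surjective z
    obtain ⟨⟨s, j, hs⟩, h⟩ := (IsLocalizedModule.eq_iff_exists (Submonoid.powers x)
      (LocalizedModule.mkLinearMap (Submonoid.powers x) (C ⧸ IC))).1 h
    have hs' : x ^ j = s := hs
    subst hs'
    have h1 : x ^ j • (Ideal.Quotient.mk IC (algebraMap B C b)) =
      x ^ j • (Ideal.Quotient.mk IC (algebraMap B C b')) := h
    have h2 : algebraMap B C (x ^ j * (b - b')) ∈ IC := by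
      apply Ideal.Quotient.eq_zero_iff_mem.1
      rw [Ideal.Quotient.mk_algebraMap, map_mul, map_sub, mul_sub, ← Algebra.smul_def,
        ← Algebra.smul_def]
      rw [Ideal.Quotient.mk_algebraMap, Ideal.Quotient.mk_algebraMap] at h1
      rw [h1, sub_self]
    obtain ⟨k, hk⟩ := H2 _ h2
    refine ⟨⟨x ^ (k + j), k + j, rfl⟩, ?_⟩
    change x ^ (k + j) • (Ideal.Quotient.mk IB b) = x ^ (k + j) • (Ideal.Quotient.mk IB b')
    change Ideal.Quotient.mk IB (x ^ (k + j) * b) = Ideal.Quotient.mk IB (x ^ (k + j) * b')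
    rw [Ideal.Quotient.eq, ← mul_sub, pow_add, mul_assoc]
    exact hk

theorem tors (H0 : ∀ b ∈ IB, algebraMap B C b ∈ IC)
    (H1 : ∀ c : C, ∃ (k : ℕ) (b : B), (algebraMap B C x) ^ k * c - algebraMap B C b ∈ IC)
    (H2 : ∀ b : B, algebraMap B C b ∈ IC → ∃ k : ℕ, x ^ k * b ∈ IB)
    (M : Type) [AddCommGroup M] [Module B M] (hM : kil IB M) (m : M)
    (h : (1 : C ⧸ IC) ⊗ₜ[B] m = 0) : ∃ k : ℕ, x ^ k • m = 0 := by
  haveI := loc H0 H1 H2
  have h1 : LinearMap.rTensor M ((LocalizedModule.mkLinearMap (Submonoid.powers x) (C ⧸ IC)) ∘ₗ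
      th H0) ((Ideal.Quotient.mk IB 1) ⊗ₜ[B] m) = 0 := by
    rw [LinearMap.rTensor_comp, LinearMap.comp_apply, LinearMap.rTensor_tmul, th_mk, map_one,
      map_one, h, map_zero]
  have h2 := IsLocalizedModule.rTensor (R := B) B (Submonoid.powers x) (N := M)
    ((LocalizedModule.mkLinearMap (Submonoid.powers x) (C ⧸ IC)) ∘ₗ th H0)
  obtain ⟨⟨s, j, hs⟩, h3⟩ := (IsLocalizedModule.eq_zero_iff (Submonoid.powers x)
    (AlgebraTensorModule.rTensor B M
      ((LocalizedModule.mkLinearMap (Submonoid.powers x) (C ⧸ IC)) ∘ₗ th H0))).1 h1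
  have hs' : x ^ j = s := hs
  subst hs'
  refine ⟨j, ?_⟩
  let g : (B ⧸ IB) →ₗ[B] (M →ₗ[B] M) := Submodule.liftQ IB (LinearMap.lsmul B M) (by
    intro b hb
    apply LinearMap.ext
    intro y
    exact hM b hb y)
  have h4 := congrArg (TensorProduct.lift g) h3
  rw [map_zero] at h4
  have h5 : TensorProduct.lift g ((x ^ j) • ((Ideal.Quotient.mk IB 1) ⊗ₜ[B] m)) = x ^ j • m := by
    rw [map_smul, TensorProduct.lift.tmul]
    congr 1
    exact one_smul B m
  rw [← h5]
  exact h4

/-- exactness defect of the base change -/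
theorem chi_exact [IsNoetherianRing C] {Λ : Type} [AddCommGroup Λ] (χ : AF C (kil IC) Λ)
    (hv : ∀ (N : Type) [AddCommGroup N] [Module C N], Module.Finite C N → kil IC N →
      (∀ y : N, (algebraMap B C x) • y = 0) → χ.f N = 0)
    (H0 : ∀ b ∈ IB, algebraMap B C b ∈ IC)
    (H1 : ∀ c : C, ∃ (k : ℕ) (b : B), (algebraMap B C x) ^ k * c - algebraMap B C b ∈ IC)
    (H2 : ∀ b : B, algebraMap B C b ∈ IC → ∃ k : ℕ, x ^ k * b ∈ IB)
    (M N Q : Type) [AddCommGroup M] [Module B M] [AddCommGroup N] [Module B N]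
    [AddCommGroup Q] [Module B Q] (i : M →ₗ[B] N) (p : N →ₗ[B] Q) (hfM : Module.Finite B M)
    (hf : Module.Finite B N) (hN : kil IB N) (hi : Function.Injective i)
    (he : Function.Exact i p) (hp : Function.Surjective p) :
    χ.f (TT B IC N) = χ.f (TT B IC M) + χ.f (TT B IC Q) := by
  let Ti : TT B IC M →ₗ[C] TT B IC N := AlgebraTensorModule.lTensor C (C ⧸ IC) i
  let Tp : TT B IC N →ₗ[C] TT B IC Q := AlgebraTensorModule.lTensor C (C ⧸ IC) p
  have hTi : ∀ t, Ti t = LinearMap.lTensor (C ⧸ IC) i t := fun _ => rfl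
  have hTp : ∀ t, Tp t = LinearMap.lTensor (C ⧸ IC) p t := fun _ => rfl
  have hex : Function.Exact Ti Tp := lTensor_exact (C ⧸ IC) he hp
  have hsu : Function.Surjective Tp := LinearMap.lTensor_surjective (C ⧸ IC) hp
  have hfN' := finT (IC := IC) N hf
  have hfM' := finT (IC := IC) M hfM
  haveI : IsNoetherian C (TT B IC M) := isNoetherian_of_isNoetherianRing_of_finite C _
  have e1 : χ.f (TT B IC N) = χ.f (LinearMap.range Ti) + χ.f (TT B IC Q) := by
    refine χ.exact' _ _ _ (LinearMap.range Ti).subtype Tp hfN' (kilT N)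
      (Submodule.injective_subtype _) ?_ hsu
    intro t
    rw [hex t]
    constructor
    · rintro ⟨w, rfl⟩
      exact ⟨⟨Ti w, w, rfl⟩, rfl⟩
    · rintro ⟨⟨_, w, rfl⟩, rfl⟩
      exact ⟨w, rfl⟩
  have e2 : χ.f (TT B IC M) = χ.f (LinearMap.ker Ti) + χ.f (LinearMap.range Ti) := by
    refine χ.exact' _ _ _ (LinearMap.ker Ti).subtype Ti.rangeRestrict hfM' (kilT M)
      (Submodule.injective_subtype _) ?_ Ti.surjective_rangeRestrict
    intro t
    constructor
    · intro h
      exact ⟨⟨t, congrArg Subtype.val h⟩, rfl⟩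
    · rintro ⟨w, rfl⟩
      exact Subtype.ext w.2
  have e3 : χ.f (LinearMap.ker Ti) = 0 := by
    refine pw' χ (algebraMap B C x) hv _ (Module.IsNoetherian.finite C _)
      ((gd_kil IC).inj _ _ (LinearMap.ker Ti).subtype (Submodule.injective_subtype _) (kilT M)) ?_
    rintro ⟨t, ht⟩
    obtain ⟨k, m, hk⟩ := rep H1 M t
    have h0 : (1 : C ⧸ IC) ⊗ₜ[B] (i m) = 0 := by
      have h1 : Ti ((1 : C ⧸ IC) ⊗ₜ[B] m) = (1 : C ⧸ IC) ⊗ₜ[B] (i m) := rfl
      rw [← h1, ← hk, alg_smul, map_smul]
      have ht' : Ti t = 0 := ht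
      rw [ht', smul_zero]
    obtain ⟨j, hj⟩ := tors H0 H1 H2 N hN (i m) h0
    rw [← map_smul] at hj
    have hj' : x ^ j • m = 0 := hi (by rw [hj, map_zero])
    refine ⟨j + k, Subtype.ext ?_⟩
    change (algebraMap B C x) ^ (j + k) • t = 0
    rw [← map_pow, ← alg_smul, pow_add, mul_smul, hk, ← tmul_smul, hj', tmul_zero]
  rw [e1, e2, e3, zero_add]

/-- the value at `B ⧸ IB` -/
theorem chi_one [IsNoetherianRing C] {Λ : Type} [AddCommGroup Λ] (χ : AF C (kil IC) Λ)
    (H0 : ∀ b ∈ IB, algebraMap B C b ∈ IC) :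
    χ.f (TT B IC (B ⧸ IB)) = χ.f (C ⧸ IC) := by
  let f : (C ⧸ IC) →ₗ[C] TT B IC (B ⧸ IB) :=
    (AlgebraTensorModule.mk B C (C ⧸ IC) (B ⧸ IB)).flip (Ideal.Quotient.mk IB 1)
  have hf : ∀ d, f d = d ⊗ₜ[B] (Ideal.Quotient.mk IB 1) := fun _ => rfl
  have hbij : Function.Bijective f := by
    constructor
    · let g : (B ⧸ IB) →ₗ[B] ((C ⧸ IC) →ₗ[B] (C ⧸ IC)) :=
        Submodule.liftQ IB (LinearMap.lsmul B (C ⧸ IC)) (by
          intro b hb
          apply LinearMap.ext
          intro y
          change b • y = 0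
          rw [← algebraMap_smul C b y]
          exact kil_quot IC _ (H0 b hb) y)
      have hg : ∀ d, TensorProduct.lift g.flip (f d) = d := by
        intro d
        rw [hf, TensorProduct.lift.tmul]
        exact one_smul B d
      intro a b hab
      rw [← hg a, hab, hg b]
    · intro t
      induction t using TensorProduct.induction_on with
      | zero => exact ⟨0, map_zero _⟩
      | add a b ha hb =>
        obtain ⟨u, rfl⟩ := ha
        obtain ⟨v, rfl⟩ := hb
        exact ⟨u + v, map_add _ _ _⟩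
      | tmul d m =>
        obtain ⟨b, rfl⟩ := Ideal.Quotient.mk_surjective m
        refine ⟨b • d, ?_⟩
        rw [hf, TensorProduct.smul_tmul]
        congr 1
        change Ideal.Quotient.mk IB (b * 1) = _
        rw [mul_one]
  exact (χ.equiv (gd_kil IC) (LinearEquiv.ofBijective f hbij) (finT _ inferInstance)
    (kilT _)).symm

end two

section three

variable {B C : Type} [CommRing B] [CommRing C] [Algebra B C] {IB : Ideal B} {IC : Ideal C} {x : B}

theorem main [IsNoetherianRing B] [IsNoetherianRing C]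
    (H0 : ∀ b ∈ IB, algebraMap B C b ∈ IC)
    (H1 : ∀ c : C, ∃ (k : ℕ) (b : B), (algebraMap B C x) ^ k * c - algebraMap B C b ∈ IC)
    (H2 : ∀ b : B, algebraMap B C b ∈ IC → ∃ k : ℕ, x ^ k * b ∈ IB)
    (hZ : ZZ B IB x) : ZZ C IC (algebraMap B C x) := by
  intro Λ _ χ hv hone Q _ _ hfQ hkQ
  let χ' : AF B (kil IB) Λ :=
    { f := fun M _ _ => χ.f (TT B IC M)
      exact' := by
        intro M N R _ _ _ _ _ _ i p hf hN hi he hp
        haveI : IsNoetherian B N := isNoetherian_of_isNoetherianRing_of_finite B N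
        exact chi_exact χ hv H0 H1 H2 M N R i p (Module.Finite.of_injective i hi) hf hN hi he hp }
  have hZ' := hZ Λ χ' (by
    intro N _ _ hf hN hx
    refine hv _ (finT N hf) (kilT N) ?_
    intro t
    rw [← alg_smul]
    induction t using TensorProduct.induction_on with
    | zero => rw [smul_zero]
    | add a b ha hb => rw [smul_add, ha, hb, add_zero]
    | tmul d m => rw [← tmul_smul, hx, tmul_zero]) (by
    change χ.f (TT B IC (B ⧸ IB)) = 0
    rw [chi_one χ H0, hone])
  letI : Module B Q := Module.compHom Q (algebraMap B C)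
  haveI : IsScalarTower B C Q := ⟨fun b c q => by
    rw [Algebra.smul_def, mul_smul]
    rfl⟩
  obtain ⟨s, hs⟩ := hfQ.fg_top
  let M : Submodule B Q := Submodule.span B (s : Set Q)
  have hfM : Module.Finite B M := Module.Finite.span_of_finite B s.finite_toSet
  have hkM : kil IB M := by
    intro b hb m
    apply Subtype.ext
    change (algebraMap B C b) • (m : Q) = 0
    exact hkQ _ (H0 b hb) _
  let g : (C ⧸ IC) →ₗ[C] (M →ₗ[B] Q) := Submodule.liftQ IC
    (LinearMap.toSpanSingleton C (M →ₗ[B] Q) M.subtype) (by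
      intro c hc
      apply LinearMap.ext
      intro y
      exact hkQ c hc (y : Q))
  have hg : ∀ (c : C) (m : M), g (Ideal.Quotient.mk IC c) m = c • (m : Q) := fun _ _ => rfl
  let G : TT B IC M →ₗ[C] Q := AlgebraTensorModule.lift g
  have hG : ∀ (d : C ⧸ IC) (m : M), G (d ⊗ₜ[B] m) = g d m := fun _ _ => rfl
  have hGs : Function.Surjective G := by
    rw [← LinearMap.range_eq_top, ← top_le_iff, ← hs, Submodule.span_le]
    intro q hq
    refine ⟨(Ideal.Quotient.mk IC 1) ⊗ₜ[B] ⟨q, Submodule.subset_span hq⟩, ?_⟩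
    rw [hG, hg, one_smul]
  have hfT := finT (IC := IC) M hfM
  haveI : IsNoetherian C (TT B IC M) := isNoetherian_of_isNoetherianRing_of_finite C _
  have e1 : χ.f (TT B IC M) = χ.f (LinearMap.ker G) + χ.f Q :=
    χ.exact' _ _ _ (LinearMap.ker G).subtype G hfT (kilT M) (Submodule.injective_subtype _)
      (LinearMap.exact_subtype_ker_map G) hGs
  have e2 : χ.f (LinearMap.ker G) = 0 := by
    refine pw' χ (algebraMap B C x) hv _ (Module.IsNoetherian.finite C _)
      ((gd_kil IC).inj _ _ (LinearMap.ker G).subtype (Submodule.injective_subtype _) (kilT M)) ?_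
    rintro ⟨t, ht⟩
    obtain ⟨k, m, hk⟩ := rep H1 M t
    have ht' : G t = 0 := ht
    have h1 : G (x ^ k • t) = 0 := by
      rw [alg_smul, map_smul, ht', smul_zero]
    rw [hk, hG] at h1
    have h2 : g (Ideal.Quotient.mk IC 1) m = 0 := h1
    rw [hg, one_smul] at h2
    have h3 : m = 0 := Subtype.ext h2
    refine ⟨k, Subtype.ext ?_⟩
    change (algebraMap B C x) ^ k • t = 0
    rw [← map_pow, ← alg_smul, hk, h3, tmul_zero]
  have e3 : χ.f (TT B IC M) = 0 := hZ' M hfM hkM
  rw [e2, zero_add] at e1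
  rw [← e1, e3]

end three

theorem hTRF : StTRF := by
  intro B C _ _ _ _ φ IB IC x h0 h1 h2 hZ
  letI : Algebra B C := φ.toAlgebra
  exact main (B := B) (C := C) (IB := IB) (IC := IC) (x := x)
    (fun b hb => h0 (Ideal.mem_map_of_mem φ hb)) h1 h2 hZ

end

end Pool.Agent.Helper7.FX
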