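import Pool.Agent.Helper72.FX.Defs

/-!
# Project FX, chapter A: smoothness of the suspensions
-/

set_option autoImplicit false

namespace Pool.Agent.Helper7.FX

open Pool.Agent.Helper72.FX Pool.Agent.Helper72.KRF Finset

noncomputable section

section hyp

variable {σ : Type} [Fintype σ] (f : MvPolynomial σ ℂ) (a : σ → MvPolynomial σ ℂ)

/-- the projection -/
def pr : MvPolynomial σ ℂ →ₐ[ℂ] QR f := Ideal.Quotient.mkₐ ℂ (Ideal.span {f})

theorem pr_mk (p : MvPolynomial σ ℂ) : pr f p = Ideal.Quotient.mk (Ideal.span {f}) p := rfl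

theorem pr_f : pr f f = 0 := Ideal.Quotient.eq_zero_iff_mem.2 (Ideal.subset_span rfl)

/-- the square of the kernel -/
abbrev J2 : Ideal (MvPolynomial σ ℂ) := RingHom.ker (pr f).toRingHom ^ 2

theorem f_mem : f ∈ RingHom.ker (pr f).toRingHom := pr_f f

theorem ff_mem (c : MvPolynomial σ ℂ) : f * f * c ∈ J2 f := by
  apply Ideal.mul_mem_right
  rw [J2, pow_two]
  exact Ideal.mul_mem_mul (f_mem f) (f_mem f)

/-- the perturbed embedding -/
def hh : MvPolynomial σ ℂ →ₐ[ℂ] (MvPolynomial σ ℂ ⧸ J2 f) :=
  MvPolynomial.aeval fun i => Ideal.Quotient.mk (J2 f) (MvPolynomial.X i - a i * f)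

theorem hh_apply (p : MvPolynomial σ ℂ) :
    hh f a p = Ideal.Quotient.mk (J2 f) (p - f * ∑ i, a i * MvPolynomial.pderiv i p) := by
  classical
  induction p using MvPolynomial.induction_on with
  | C c =>
    have h1 : hh f a (MvPolynomial.C c) = algebraMap ℂ _ c := MvPolynomial.algHom_C _ _
    rw [h1]
    simp only [MvPolynomial.pderiv_C, mul_zero, Finset.sum_const_zero, sub_zero]
    rfl
  | add p q hp hq =>
    rw [map_add, hp, hq, ← map_add]
    congr 1
    simp only [map_add, mul_add, Finset.sum_add_distrib]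
    ring
  | mul_X p j hp =>
    have h1 : hh f a (MvPolynomial.X j) = Ideal.Quotient.mk (J2 f) (MvPolynomial.X j - a j * f) :=
      MvPolynomial.aeval_X _ _
    rw [map_mul, hp, h1, ← map_mul, Ideal.Quotient.eq]
    have h2 : ∑ i, a i * MvPolynomial.pderiv i (p * MvPolynomial.X j) =
        (∑ i, a i * MvPolynomial.pderiv i p) * MvPolynomial.X j + p * a j := by
      have h3 : ∀ i, a i * MvPolynomial.pderiv i (p * MvPolynomial.X j) =
          a i * MvPolynomial.pderiv i p * MvPolynomial.X j + (if i = j then p * a j else 0) := by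
        intro i
        rw [MvPolynomial.pderiv_mul, MvPolynomial.pderiv_X, Pi.single_apply]
        split_ifs with h4 h5 h5
        · subst h4
          ring
        · exact absurd h4.symm h5
        · exact absurd h5.symm h4
        · ring
      rw [Finset.sum_congr rfl fun i _ => h3 i, Finset.sum_add_distrib, Finset.sum_ite_eq',
        if_pos (Finset.mem_univ _), Finset.sum_mul]
    rw [h2]
    have h5 := ff_mem f ((∑ i, a i * MvPolynomial.pderiv i p) * a j)
    have h6 : (p - f * ∑ i, a i * MvPolynomial.pderiv i p) * (MvPolynomial.X j - a j * f) -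
        (p * MvPolynomial.X j - f * ((∑ i, a i * MvPolynomial.pderiv i p) * MvPolynomial.X j +
          p * a j)) = f * f * ((∑ i, a i * MvPolynomial.pderiv i p) * a j) := by ring
    rw [h6]
    exact h5

theorem hh_f (c : MvPolynomial σ ℂ) (h : ∑ i, a i * MvPolynomial.pderiv i f = 1 + c * f) :
    hh f a f = 0 := by
  rw [hh_apply, h, Ideal.Quotient.eq_zero_iff_mem]
  have h1 := ff_mem f (-c)
  have h2 : f - f * (1 + c * f) = f * f * (-c) := by ring
  rw [h2]
  exact h1

/-- a hypersurface with unit Jacobian ideal is smooth -/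
theorem smooth_hyp (c : MvPolynomial σ ℂ) (h : ∑ i, a i * MvPolynomial.pderiv i f = 1 + c * f) :
    Algebra.Smooth ℂ (QR f) := by
  have hfs : Algebra.FormallySmooth ℂ (QR f) := by
    let g : QR f →ₐ[ℂ] (MvPolynomial σ ℂ ⧸ RingHom.ker (pr f).toRingHom ^ 2) :=
      Ideal.Quotient.liftₐ (Ideal.span {f}) (hh f a) (by
        intro x hx
        obtain ⟨q, rfl⟩ := Ideal.mem_span_singleton'.1 hx
        rw [map_mul, hh_f f a c h, mul_zero])
    refine Algebra.FormallySmooth.of_split (pr f) g ?_
    apply ext_gen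
    intro i
    have h1 : g (gen f i) = Ideal.Quotient.mk (J2 f) (MvPolynomial.X i - a i * f) :=
      MvPolynomial.aeval_X _ _
    rw [AlgHom.comp_apply, h1, AlgHom.id_apply]
    change pr f (MvPolynomial.X i - a i * f) = gen f i
    rw [map_sub, map_mul, pr_f, mul_zero, sub_zero]
    rfl
  have hfp : Algebra.FinitePresentation ℂ (QR f) :=
    Algebra.FinitePresentation.quotient ⟨{f}, by simp⟩
  exact { formallySmooth := hfs, finitePresentation := hfp }

/-- Nullstellensatz: no singular points -/
theorem smooth_of_points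
    (h : ∀ x : σ → ℂ, MvPolynomial.eval x f = 0 → ∃ i, MvPolynomial.eval x (MvPolynomial.pderiv i f) ≠ 0) :
    Algebra.Smooth ℂ (QR f) := by
  have htop : Ideal.span {f} ⊔ Ideal.span (Set.range fun i => MvPolynomial.pderiv i f) = ⊤ := by
    by_contra hne
    obtain ⟨M, hM, hle⟩ := Ideal.exists_le_maximal _ hne
    obtain ⟨x, rfl⟩ := MvPolynomial.isMaximal_iff_eq_vanishingIdeal_singleton.1 hM
    have h1 : MvPolynomial.eval x f = 0 := by
      have := hle (Ideal.mem_sup_left (Ideal.subset_span rfl))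
      rw [MvPolynomial.mem_vanishingIdeal_singleton_iff] at this
      exact this
    obtain ⟨i, hi⟩ := h x h1
    apply hi
    have := hle (Ideal.mem_sup_right (Ideal.subset_span ⟨i, rfl⟩))
    rw [MvPolynomial.mem_vanishingIdeal_singleton_iff] at this
    exact this
  have h1 : (1 : MvPolynomial σ ℂ) ∈ Ideal.span {f} ⊔
      Ideal.span (Set.range fun i => MvPolynomial.pderiv i f) := by
    rw [htop]
    exact Submodule.mem_top
  obtain ⟨u, hu, v, hv, huv⟩ := Submodule.mem_sup.1 h1
  obtain ⟨c, rfl⟩ := Ideal.mem_span_singleton'.1 hu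
  obtain ⟨a, ha⟩ := (Ideal.mem_span_range_iff_exists_fun).1 hv
  refine smooth_hyp f a (-c) ?_
  rw [ha]
  linear_combination huv

end hyp

theorem hTA : TgtA := by
  intro n F hF
  apply smooth_of_points
  intro x hx
  have hU : UVP F = MvPolynomial.X (Sum.inl 0) * MvPolynomial.X (Sum.inl 1) -
    MvPolynomial.rename Sum.inr F := rfl
  have hd : ∀ i, MvPolynomial.pderiv i (UVP F) =
      MvPolynomial.pderiv i (MvPolynomial.X (Sum.inl 0) * MvPolynomial.X (Sum.inl 1) -
    MvPolynomial.rename Sum.inr F) := fun i => rfl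
  by_contra hne
  push Not at hne
  have h0 := hne (Sum.inl 1)
  have h1 := hne (Sum.inl 0)
  have h2 : ∀ j, MvPolynomial.eval x (MvPolynomial.pderiv (Sum.inr j) (UVP F)) = 0 :=
    fun j => hne (Sum.inr j)
  have hz : ∀ j, MvPolynomial.pderiv (Sum.inr j) (MvPolynomial.rename (Sum.inr : Fin n → Fin 2 ⊕ Fin n) F) =
      MvPolynomial.rename Sum.inr (MvPolynomial.pderiv j F) := by
    intro j
    exact MvPolynomial.pderiv_rename Sum.inr_injective j F
  have hvars : ∀ i : Fin 2, MvPolynomial.pderiv (Sum.inl i)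
      (MvPolynomial.rename (Sum.inr : Fin n → Fin 2 ⊕ Fin n) F) = 0 := by
    intro i
    apply MvPolynomial.pderiv_eq_zero_of_notMem_vars
    intro hi
    have := MvPolynomial.mem_vars_rename _ _ hi
    obtain ⟨k, _, hk⟩ := this
    cases hk
  have e0 : x (Sum.inl 0) = 0 := by
    rw [hd, map_sub, hvars, sub_zero, MvPolynomial.pderiv_mul, MvPolynomial.pderiv_X,
      MvPolynomial.pderiv_X] at h0
    simpa [Pi.single_apply] using h0
  have e2 : ∀ j, MvPolynomial.eval (fun j => x (Sum.inr j)) (MvPolynomial.pderiv j F) = 0 := by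
    intro j
    have := h2 j
    rw [hd, map_sub, hz, MvPolynomial.pderiv_mul, MvPolynomial.pderiv_X,
      MvPolynomial.pderiv_X, map_sub, MvPolynomial.eval_rename] at this
    have h3 : MvPolynomial.eval (x ∘ Sum.inr) (MvPolynomial.pderiv j F) = 0 := by
      simpa [Pi.single_apply] using this
    exact h3
  have e3 : MvPolynomial.eval (fun j => x (Sum.inr j)) F = 0 := by
    rw [hU, map_sub, map_mul, MvPolynomial.eval_X, MvPolynomial.eval_X, e0, zero_mul, zero_sub,
      neg_eq_zero, MvPolynomial.eval_rename] at hx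
    exact hx
  obtain ⟨j, hj⟩ := hF _ e3
  exact hj (e2 j)

end

end Pool.Agent.Helper7.FX
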