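import Pool.Agent.Helper72.FX.Defs

/-!
# Project FX, chapter A: flexibility of the suspensions
-/

set_option autoImplicit false

namespace Pool.Agent.Helper7.FX

open Pool.Agent.Helper72.FX Pool.Agent.Helper72.KRF Finset

noncomputable section

/-! ### polynomial rings over flexible rings -/

section poly

variable {σ : Type} {A : Type} [CommRing A] [Algebra ℂ A]

/-- apply a linear map to the coefficients -/
def extF (D : A →ₗ[ℂ] A) (p : MvPolynomial σ A) : MvPolynomial σ A :=
  ∑ m ∈ p.support, MvPolynomial.monomial m (D (p.coeff m))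

theorem extF_coeff (D : A →ₗ[ℂ] A) (p : MvPolynomial σ A) (m : σ →₀ ℕ) :
    (extF D p).coeff m = D (p.coeff m) := by
  classical
  unfold extF
  simp only [MvPolynomial.coeff_sum, MvPolynomial.coeff_monomial,
    Finset.sum_ite_eq', MvPolynomial.mem_support_iff]
  by_cases h : p.coeff m = 0
  · simp [h]
  · simp [h]

/-- apply a linear map to the coefficients -/
def extL (D : A →ₗ[ℂ] A) : MvPolynomial σ A →ₗ[ℂ] MvPolynomial σ A where
  toFun := extF D
  map_add' p q := by
    ext m
    rw [extF_coeff, MvPolynomial.coeff_add, MvPolynomial.coeff_add, extF_coeff, extF_coeff, map_add]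
  map_smul' c p := by
    ext m
    rw [extF_coeff, RingHom.id_apply, MvPolynomial.coeff_smul, MvPolynomial.coeff_smul, extF_coeff,
      map_smul]

theorem extL_coeff (D : A →ₗ[ℂ] A) (p : MvPolynomial σ A) (m : σ →₀ ℕ) :
    (extL D p).coeff m = D (p.coeff m) := extF_coeff D p m

theorem extL_monomial (D : A →ₗ[ℂ] A) (m : σ →₀ ℕ) (a : A) :
    extL D (MvPolynomial.monomial m a) = MvPolynomial.monomial m (D a) := by
  classical
  ext n
  rw [extL_coeff, MvPolynomial.coeff_monomial, MvPolynomial.coeff_monomial]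
  split_ifs
  · rfl
  · rw [map_zero]

/-- extension of a derivation to the polynomial ring -/
def ext (D : Derivation ℂ A A) : Derivation ℂ (MvPolynomial σ A) (MvPolynomial σ A) :=
  Derivation.mk' (extL D.toLinearMap) (by
    intro p q
    induction p using MvPolynomial.induction_on' with
    | add p p' hp hp' =>
      rw [add_mul, map_add, hp, hp', map_add, add_smul, smul_add]
      ring
    | monomial m a =>
      induction q using MvPolynomial.induction_on' with
      | add q q' hq hq' =>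
        rw [mul_add, map_add, hq, hq', map_add, add_smul, smul_add]
        ring
      | monomial n b =>
        rw [MvPolynomial.monomial_mul, extL_monomial, extL_monomial, extL_monomial, smul_eq_mul,
          smul_eq_mul, MvPolynomial.monomial_mul, MvPolynomial.monomial_mul, add_comm n m,
          ← map_add]
        congr 1
        change D (a * b) = a * D b + b * D a
        rw [Derivation.leibniz]
        rfl)

theorem ext_C (D : Derivation ℂ A A) (a : A) :
    ext (σ := σ) D (MvPolynomial.C a) = MvPolynomial.C (D a) := extL_monomial _ _ _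

theorem ext_X (D : Derivation ℂ A A) (s : σ) :
    ext D (MvPolynomial.X s : MvPolynomial σ A) = 0 := by
  change extL D.toLinearMap (MvPolynomial.monomial (Finsupp.single s 1) 1) = 0
  rw [extL_monomial]
  change MvPolynomial.monomial (Finsupp.single s 1) (D 1) = 0
  rw [Derivation.map_one_eq_zero, map_zero]

theorem ext_LN {D : Derivation ℂ A A} (hD : LN D) : LN (ext (σ := σ) D) := by
  intro p
  rw [← mem_nil]
  induction p using MvPolynomial.induction_on with
  | C a =>
    obtain ⟨k, hk⟩ := hD a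
    refine ⟨k, ?_⟩
    have h : ∀ k, (⇑(ext (σ := σ) D))^[k] (MvPolynomial.C a) = MvPolynomial.C ((⇑D)^[k] a) := by
      intro k
      induction k with
      | zero => rfl
      | succ k ih => rw [Function.iterate_succ_apply', ih, ext_C, Function.iterate_succ_apply']
    rw [h, hk, map_zero]
  | add p q hp hq => exact add_mem hp hq
  | mul_X p i hp => exact mul_mem hp (nil_of_zero (ext_X D i))

/-- the coordinate derivations over `ℂ` -/
def pdC (s : σ) : Derivation ℂ (MvPolynomial σ A) (MvPolynomial σ A) :=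
  (MvPolynomial.pderiv s).restrictScalars ℂ

theorem pdC_C (s : σ) (a : A) : pdC s (MvPolynomial.C a : MvPolynomial σ A) = 0 :=
  MvPolynomial.pderiv_C

theorem pdC_X [DecidableEq σ] (s t : σ) :
    pdC s (MvPolynomial.X t : MvPolynomial σ A) = if t = s then 1 else 0 := by
  change MvPolynomial.pderiv s (MvPolynomial.X t : MvPolynomial σ A) = _
  rw [MvPolynomial.pderiv_X, Pi.single_apply]

theorem pdC_LN (s : σ) : LN (pdC (A := A) s) := by
  classical
  intro p
  rw [← mem_nil]
  induction p using MvPolynomial.induction_on with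
  | C a => exact nil_of_zero (pdC_C s a)
  | add p q hp hq => exact add_mem hp hq
  | mul_X p i hp =>
    refine mul_mem hp (nil_of ?_)
    rw [pdC_X]
    split_ifs
    · exact one_mem _
    · exact zero_mem _

theorem flexible_mv [Fintype σ] (h : Flexible A) : Flexible (MvPolynomial σ A) := by
  classical
  intro Φ Δ hΔ
  change Δ ∈ VF Φ
  have hΔ' : PD Φ Δ := hΔ
  have hsc : ∀ (a : A) (c : ℂ), (MvPolynomial.C (c • a) : MvPolynomial σ A) =
      c • MvPolynomial.C a := by
    intro a c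
    exact MvPolynomial.ext _ _ fun m => by
      rw [MvPolynomial.coeff_smul, MvPolynomial.coeff_C, MvPolynomial.coeff_C]
      split_ifs
      · rfl
      · rw [smul_zero]
  let Cl : A →ₗ[ℂ] MvPolynomial σ A :=
    { toFun := fun a => MvPolynomial.C a
      map_add' := fun a b => map_add _ a b
      map_smul' := fun c a => hsc a c }
  let φ : A →ₐ[ℂ] ℂ := Φ.comp (IsScalarTower.toAlgHom ℂ A (MvPolynomial σ A))
  have hφ : ∀ a, φ a = Φ (MvPolynomial.C a) := fun a => rfl
  have h1 := h φ (Δ.comp Cl) (by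
    intro a b
    change Δ (MvPolynomial.C (a * b)) = Φ (MvPolynomial.C a) * Δ (MvPolynomial.C b) +
      Φ (MvPolynomial.C b) * Δ (MvPolynomial.C a)
    rw [map_mul, hΔ])
  -- lift of the combination
  have h2 : ∀ ℓ ∈ VF φ, ∃ μ : MvPolynomial σ A →ₗ[ℂ] ℂ, μ ∈ VF Φ ∧ PD Φ μ ∧ μ.comp Cl = ℓ := by
    intro ℓ hℓ
    induction hℓ using Submodule.span_induction with
    | mem x hx =>
      obtain ⟨D, hD, rfl⟩ := hx
      refine ⟨val Φ (ext D), val_mem Φ _ (ext_LN hD), PD_val _ _, ?_⟩
      refine LinearMap.ext fun a => ?_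
      change Φ (ext D (MvPolynomial.C a)) = Φ (MvPolynomial.C (D a))
      rw [ext_C]
    | zero =>
      refine ⟨0, zero_mem _, ?_, LinearMap.zero_comp _⟩
      intro a b
      simp
    | add x y _ _ hx hy =>
      obtain ⟨μ, hm, hp, he⟩ := hx
      obtain ⟨ν, hm', hp', he'⟩ := hy
      refine ⟨μ + ν, add_mem hm hm', ?_, ?_⟩
      · intro a b
        rw [LinearMap.add_apply, LinearMap.add_apply, LinearMap.add_apply, hp, hp']
        ring
      · rw [LinearMap.add_comp, he, he']
    | smul c x _ hx =>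
      obtain ⟨μ, hm, hp, he⟩ := hx
      exact ⟨c • μ, Submodule.smul_mem _ _ hm, hp.smul c, by rw [LinearMap.smul_comp, he]⟩
  obtain ⟨μ, hm, hp, he⟩ := h2 _ h1
  have hsub : Δ - μ ∈ VF Φ := by
    have p1 : PD Φ (Δ - μ) := hΔ'.sub hp
    obtain ⟨δ, hδ⟩ : ∃ d, d = Δ - μ := ⟨_, rfl⟩
    rw [← hδ] at p1 ⊢
    have c1 : ∀ a, δ (MvPolynomial.C a) = 0 := by
      intro a
      have := LinearMap.congr_fun he a
      change μ (MvPolynomial.C a) = Δ (MvPolynomial.C a) at this
      rw [hδ, LinearMap.sub_apply, this, sub_self]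
    have e1 : δ = ∑ s, δ (MvPolynomial.X s) • val Φ (pdC (A := A) s) := by
      have e2 : ∀ p : MvPolynomial σ A, δ p =
          ∑ s, δ (MvPolynomial.X s) * Φ (pdC s p) := by
        intro p
        induction p using MvPolynomial.induction_on with
        | C a => simp [c1, pdC_C]
        | add p q hp hq =>
          rw [map_add, hp, hq, ← Finset.sum_add_distrib]
          exact Finset.sum_congr rfl fun s _ => by rw [map_add, map_add, mul_add]
        | mul_X p i hp =>
          rw [p1, hp]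
          have h3 : ∀ s, Φ (pdC s (p * MvPolynomial.X i)) =
              Φ p * (if i = s then 1 else 0) + Φ (MvPolynomial.X i) * Φ (pdC s p) := by
            intro s
            rw [Derivation.leibniz, pdC_X, smul_eq_mul, smul_eq_mul, map_add, map_mul, map_mul]
            congr 2
            split_ifs
            · rw [map_one]
            · rw [map_zero]
          simp only [h3, mul_add, Finset.sum_add_distrib]
          have h4 : ∑ x, δ (MvPolynomial.X x) * (Φ p * if i = x then 1 else 0) =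
              Φ p * δ (MvPolynomial.X i) := by
            rw [Finset.sum_eq_single i]
            · rw [if_pos rfl]
              ring
            · intro b _ hb
              rw [if_neg hb.symm]
              ring
            · intro hb
              exact absurd (Finset.mem_univ i) hb
          rw [h4, Finset.mul_sum]
          congr 1
          exact Finset.sum_congr rfl fun s _ => by ring
      refine LinearMap.ext fun p => ?_
      rw [e2 p, LinearMap.sum_apply]
      rfl
    rw [e1]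
    exact sum_mem fun s _ => Submodule.smul_mem _ _ (val_mem Φ _ (pdC_LN s))
  have := add_mem hsub hm
  rwa [sub_add_cancel] at this

end poly

/-! ### the suspension -/

section susp

variable {n : ℕ} (F : MvPolynomial (Fin n) ℂ)

abbrev RR : Type := QR (UVP F)

def gu : RR F := gen (UVP F) (Sum.inl 0)
def gv : RR F := gen (UVP F) (Sum.inl 1)
def gz (j : Fin n) : RR F := gen (UVP F) (Sum.inr j)
/-- value of a polynomial in the variables `z` -/
def pz (p : MvPolynomial (Fin n) ℂ) : RR F := MvPolynomial.aeval (gz F) p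

theorem rel : gu F * gv F = pz F F := by
  have h := aeval_F (F := UVP F)
  rw [UVP, map_sub, map_mul, MvPolynomial.aeval_X, MvPolynomial.aeval_X,
    MvPolynomial.aeval_rename] at h
  exact sub_eq_zero.1 h

/-- derivations -/
theorem mkDer_UV (v : Fin 2 ⊕ Fin n → RR F) :
    MvPolynomial.mkDerivation ℂ v (UVP F) =
      gu F * v (Sum.inl 1) + gv F * v (Sum.inl 0) -
        ∑ j, pz F (MvPolynomial.pderiv j F) * v (Sum.inr j) := by
  have hsm : ∀ (p : MvPolynomial (Fin 2 ⊕ Fin n) ℂ) (a : RR F),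
      p • a = MvPolynomial.aeval (gen (UVP F)) p * a := by
    intro p a
    rw [← mk_aeval]
    rfl
  have h1 : MvPolynomial.rename (Sum.inr : Fin n → Fin 2 ⊕ Fin n) F =
      MvPolynomial.aeval (fun j => (MvPolynomial.X (Sum.inr j) : MvPolynomial (Fin 2 ⊕ Fin n) ℂ)) F := by
    rw [MvPolynomial.rename_eq_aeval]
    rfl
  have h0 : MvPolynomial.mkDerivation ℂ v (UVP F) = MvPolynomial.mkDerivation ℂ v
      (MvPolynomial.X (Sum.inl 0) * MvPolynomial.X (Sum.inl 1) -
        MvPolynomial.rename Sum.inr F) := rfl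
  rw [h0, map_sub, h1, chain]
  simp only [Derivation.leibniz, MvPolynomial.mkDerivation_X]
  simp only [hsm, MvPolynomial.aeval_X]
  have h2 : ∀ j, MvPolynomial.aeval (gen (UVP F)) (MvPolynomial.aeval
      (fun j => (MvPolynomial.X (Sum.inr j) : MvPolynomial (Fin 2 ⊕ Fin n) ℂ))
      (MvPolynomial.pderiv j F)) = pz F (MvPolynomial.pderiv j F) := by
    intro j
    rw [MvPolynomial.comp_aeval_apply]
    simp only [MvPolynomial.aeval_X]
    rfl
  rw [Finset.sum_congr rfl (fun j _ => by rw [h2 j])]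
  rfl

/-- derivation `u ∂_w + F_w ∂_v` -/
def Dw (w : Fin n → ℂ) : Derivation ℂ (RR F) (RR F) :=
  mkD (Sum.elim ![0, ∑ j, pz F (MvPolynomial.pderiv j F) * algebraMap ℂ _ (w j)]
    (fun j => gu F * algebraMap ℂ _ (w j))) (by
      rw [mkDer_UV]
      simp only [Sum.elim_inl, Sum.elim_inr, Matrix.cons_val_zero, Matrix.cons_val_one, mul_zero,
        add_zero, Finset.mul_sum]
      rw [sub_eq_zero]
      exact Finset.sum_congr rfl fun j _ => by ring)

theorem Dw_u (w : Fin n → ℂ) : Dw F w (gu F) = 0 := mkD_gen _ _ _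
theorem Dw_v (w : Fin n → ℂ) : Dw F w (gv F) =
    ∑ j, pz F (MvPolynomial.pderiv j F) * algebraMap ℂ _ (w j) := mkD_gen _ _ _
theorem Dw_z (w : Fin n → ℂ) (j : Fin n) : Dw F w (gz F j) = gu F * algebraMap ℂ _ (w j) :=
  mkD_gen _ _ _

theorem pz_mem {S : Subalgebra ℂ (RR F)} (h : ∀ j, gz F j ∈ S) (q : MvPolynomial (Fin n) ℂ) :
    pz F q ∈ S := by
  unfold pz
  induction q using MvPolynomial.induction_on with
  | C a => rw [MvPolynomial.aeval_C]; exact S.algebraMap_mem a
  | add p q hp hq => rw [map_add]; exact add_mem hp hq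
  | mul_X p i hp => rw [map_mul, MvPolynomial.aeval_X]; exact mul_mem hp (h i)

theorem Dw_LN (w : Fin n → ℂ) : LN (Dw F w) := by
  rw [LN_iff]
  apply sub_top
  have hu : gu F ∈ nil (Dw F w) := nil_of_zero (Dw_u F w)
  have hz : ∀ j, gz F j ∈ nil (Dw F w) := by
    intro j
    refine nil_of ?_
    rw [Dw_z]
    exact mul_mem hu ((nil (Dw F w)).algebraMap_mem _)
  have hv : gv F ∈ nil (Dw F w) := by
    refine nil_of ?_
    rw [Dw_v]
    exact sum_mem fun j _ => mul_mem (pz_mem F hz _) ((nil (Dw F w)).algebraMap_mem _)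
  rintro (i | j)
  · fin_cases i
    · exact hu
    · exact hv
  · exact hz j

/-- the generators with `u` and `v` exchanged -/
def sv : Fin 2 ⊕ Fin n → RR F := Sum.elim ![gv F, gu F] (gz F)

theorem sv_F : MvPolynomial.aeval (sv F) (UVP F) = 0 := by
  change MvPolynomial.aeval (sv F) (MvPolynomial.X (Sum.inl 0) * MvPolynomial.X (Sum.inl 1) -
    MvPolynomial.rename Sum.inr F) = 0
  rw [map_sub, map_mul, MvPolynomial.aeval_X, MvPolynomial.aeval_X,
    MvPolynomial.aeval_rename]
  change gv F * gu F - pz F F = 0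
  rw [mul_comm, rel, sub_self]

/-- the endomorphism which exchanges `u` and `v` -/
def swE : RR F →ₐ[ℂ] RR F :=
  Ideal.Quotient.liftₐ _ (MvPolynomial.aeval (sv F)) (by
    intro a ha
    obtain ⟨q, rfl⟩ := Ideal.mem_span_singleton'.1 ha
    rw [map_mul, sv_F, mul_zero])

theorem swE_gen (i : Fin 2 ⊕ Fin n) : swE F (gen (UVP F) i) = sv F i := by
  change MvPolynomial.aeval (sv F) (MvPolynomial.X i) = _
  rw [MvPolynomial.aeval_X]

theorem swE_u : swE F (gu F) = gv F := swE_gen F _
theorem swE_v : swE F (gv F) = gu F := swE_gen F _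
theorem swE_z (j : Fin n) : swE F (gz F j) = gz F j := swE_gen F _

theorem swE_swE : (swE F).comp (swE F) = AlgHom.id ℂ _ := by
  apply ext_gen
  rintro (i | j)
  · fin_cases i
    · change swE F (swE F (gu F)) = gu F
      rw [swE_u, swE_v]
    · change swE F (swE F (gv F)) = gv F
      rw [swE_v, swE_u]
  · change swE F (swE F (gz F j)) = gz F j
    rw [swE_z, swE_z]

def sw : RR F ≃ₐ[ℂ] RR F := AlgEquiv.ofAlgHom (swE F) (swE F) (swE_swE F) (swE_swE F)

theorem sw_u : sw F (gu F) = gv F := swE_u F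
theorem sw_v : sw F (gv F) = gu F := swE_v F
theorem sw_z (j : Fin n) : sw F (gz F j) = gz F j := swE_z F j
theorem sw_pz (p : MvPolynomial (Fin n) ℂ) : sw F (pz F p) = pz F p := by
  unfold pz
  have : sw F (MvPolynomial.aeval (gz F) p) = MvPolynomial.aeval (fun j => sw F (gz F j)) p := by
    have := MvPolynomial.comp_aeval_apply (R := ℂ) (gz F) (swE F) p
    exact this
  rw [this]
  simp only [sw_z]

variable {F}

theorem phi_pz (φ : RR F →ₐ[ℂ] ℂ) (p : MvPolynomial (Fin n) ℂ) :
    φ (pz F p) = MvPolynomial.eval (fun j => φ (gz F j)) p := by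
  unfold pz
  rw [MvPolynomial.comp_aeval_apply]
  rfl

theorem PD.pz_zero {φ : RR F →ₐ[ℂ] ℂ} {δ : RR F →ₗ[ℂ] ℂ} (h : PD φ δ)
    (h0 : ∀ j, δ (gz F j) = 0) (q : MvPolynomial (Fin n) ℂ) : δ (pz F q) = 0 := by
  unfold pz
  induction q using MvPolynomial.induction_on with
  | C a => rw [MvPolynomial.aeval_C, h.algebraMap]
  | add p q hp hq => rw [map_add, map_add, hp, hq, add_zero]
  | mul_X p i hp => rw [map_mul, h, MvPolynomial.aeval_X, h0, hp, mul_zero, mul_zero, add_zero]

theorem mem_of_sub' {φ : RR F →ₐ[ℂ] ℂ} {δ μ : RR F →ₗ[ℂ] ℂ} (h : δ - μ ∈ VF φ)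
    (hμ : μ ∈ VF φ) : δ ∈ VF φ := by
  have := add_mem h hμ
  rwa [sub_add_cancel] at this

/-- the good points -/
theorem flex_good (φ : RR F →ₐ[ℂ] ℂ) (hu : φ (gu F) ≠ 0) (j : Fin n)
    (hj : φ (pz F (MvPolynomial.pderiv j F)) ≠ 0) : FlexAt φ := by
  intro δ hδ
  let D' : Derivation ℂ (RR F) (RR F) := conj (sw F) (Dw F (Pi.single j 1))
  have hD' : LN D' := conj_LN _ (Dw_LN F _)
  have hss : (sw F).symm (gu F) = gv F := by
    rw [← sw_v F, AlgEquiv.symm_apply_apply]
  have e1 : D' (gu F) = pz F (MvPolynomial.pderiv j F) := by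
    change sw F (Dw F (Pi.single j 1) ((sw F).symm (gu F))) = _
    rw [hss, Dw_v, Finset.sum_eq_single j]
    · rw [Pi.single_eq_same, map_one, mul_one, sw_pz]
    · intro b _ hb
      rw [Pi.single_eq_of_ne hb, map_zero, mul_zero]
    · intro hb
      exact absurd (Finset.mem_univ j) hb
  obtain ⟨c0, hc0⟩ : ∃ c, c = δ (gu F) / φ (pz F (MvPolynomial.pderiv j F)) := ⟨_, rfl⟩
  refine mem_of_sub' (μ := c0 • val φ D') ?_ (Submodule.smul_mem _ _ (val_mem φ _ hD'))
  have p1 : PD φ (δ - c0 • val φ D') := hδ.sub ((PD_val φ _).smul c0)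
  obtain ⟨δ1, h1⟩ : ∃ d, d = δ - c0 • val φ D' := ⟨_, rfl⟩
  rw [← h1] at p1 ⊢
  have u1 : δ1 (gu F) = 0 := by
    rw [h1, LinearMap.sub_apply, LinearMap.smul_apply, val_apply, e1, hc0, smul_eq_mul,
      div_mul_cancel₀ _ hj, sub_self]
  obtain ⟨w, hw⟩ : ∃ w : Fin n → ℂ, w = fun j => δ1 (gz F j) / φ (gu F) := ⟨_, rfl⟩
  refine mem_of_sub' (μ := val φ (Dw F w)) ?_ (val_mem φ _ (Dw_LN F w))
  have p2 : PD φ (δ1 - val φ (Dw F w)) := p1.sub (PD_val φ _)
  obtain ⟨δ2, h2⟩ : ∃ d, d = δ1 - val φ (Dw F w) := ⟨_, rfl⟩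
  rw [← h2] at p2 ⊢
  have u2 : δ2 (gu F) = 0 := by
    rw [h2, LinearMap.sub_apply, val_apply, Dw_u, map_zero, u1, sub_zero]
  have z2 : ∀ j, δ2 (gz F j) = 0 := by
    intro j
    rw [h2, LinearMap.sub_apply, val_apply, Dw_z, map_mul, AlgHom.commutes, hw]
    change δ1 (gz F j) - φ (gu F) * (δ1 (gz F j) / φ (gu F)) = 0
    rw [mul_div_cancel₀ _ hu, sub_self]
  have v2 : δ2 (gv F) = 0 := by
    have h := congrArg δ2 (rel F)
    rw [p2, u2, PD.pz_zero p2 z2, mul_zero, add_zero] at h
    exact (mul_eq_zero.1 h).resolve_left hu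
  have : δ2 = 0 := by
    apply PD_ext p2
    rintro (i | i)
    · fin_cases i
      · exact u2
      · exact v2
    · exact z2 i
  rw [this]
  exact zero_mem _

theorem flex_u (hF : SmZ F) (hz : ∃ z, MvPolynomial.eval z F = 0) (φ : RR F →ₐ[ℂ] ℂ)
    (hu : φ (gu F) ≠ 0) : FlexAt φ := by
  obtain ⟨z, hz⟩ := hz
  obtain ⟨j, hj⟩ := hF z hz
  obtain ⟨w, hw⟩ : ∃ w : Fin n → ℂ, w = fun j => (z j - φ (gz F j)) / φ (gu F) := ⟨_, rfl⟩
  apply FlexAt.of_aut (expA (Dw F w) (Dw_LN F w) 1)
  obtain ⟨φ1, h1⟩ : ∃ f, f = φ.comp (expA (Dw F w) (Dw_LN F w) 1).toAlgHom := ⟨_, rfl⟩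
  rw [← h1]
  have c1 : ∀ a, φ1 a = φ (expA (Dw F w) (Dw_LN F w) 1 a) := fun a => by rw [h1]; rfl
  have u1 : φ1 (gu F) = φ (gu F) := by
    rw [c1, expA_zero _ _ _ (Dw_u F w)]
  have z1 : ∀ j, φ1 (gz F j) = z j := by
    intro j
    rw [c1, expA_one _ _ _ (by
      rw [Dw_z, Derivation.leibniz, Derivation.map_algebraMap, Dw_u]
      simp), Dw_z, one_smul, map_add, map_mul, AlgHom.commutes, hw]
    change φ (gz F j) + φ (gu F) * ((z j - φ (gz F j)) / φ (gu F)) = z j
    rw [mul_div_cancel₀ _ hu]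
    ring
  refine flex_good φ1 (by rw [u1]; exact hu) j ?_
  rw [phi_pz]
  simp only [z1]
  exact hj

theorem Dw_pz (w : Fin n → ℂ) (p : MvPolynomial (Fin n) ℂ) : ∃ y, Dw F w (pz F p) = gu F * y := by
  refine ⟨∑ j, pz F (MvPolynomial.pderiv j p) * algebraMap ℂ _ (w j), ?_⟩
  unfold pz
  rw [chain, Finset.mul_sum]
  refine Finset.sum_congr rfl fun j _ => ?_
  rw [Dw_z, smul_eq_mul]
  ring

theorem Dw_iter (w : Fin n → ℂ) (k : ℕ) : ∃ y, (⇑(Dw F w))^[k + 2] (gv F) = gu F * y := by
  induction k with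
  | zero =>
    change ∃ y, Dw F w (Dw F w (gv F)) = gu F * y
    rw [Dw_v, map_sum]
    have h : ∀ j, ∃ y, Dw F w (pz F (MvPolynomial.pderiv j F) * algebraMap ℂ (RR F) (w j)) =
        gu F * y := by
      intro j
      obtain ⟨y, hy⟩ := Dw_pz (F := F) w (MvPolynomial.pderiv j F)
      refine ⟨y * algebraMap ℂ (RR F) (w j), ?_⟩
      rw [Derivation.leibniz, Derivation.map_algebraMap, hy, smul_zero, zero_add, smul_eq_mul]
      ring
    choose y hy using h
    refine ⟨∑ j, y j, ?_⟩
    rw [Finset.mul_sum]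
    exact Finset.sum_congr rfl fun j _ => hy j
  | succ k ih =>
    obtain ⟨y, hy⟩ := ih
    refine ⟨Dw F w y, ?_⟩
    rw [show k + 1 + 2 = (k + 2) + 1 from rfl, Function.iterate_succ_apply', hy,
      Derivation.leibniz, Dw_u, smul_zero, add_zero, smul_eq_mul]

/-- All points are flexible. -/
theorem flexUV (hF : SmZ F) (hz : ∃ z, MvPolynomial.eval z F = 0) (φ : RR F →ₐ[ℂ] ℂ) :
    FlexAt φ := by
  by_cases hu : φ (gu F) = 0
  swap
  · exact flex_u hF hz φ hu
  have hv : ∀ φ : RR F →ₐ[ℂ] ℂ, φ (gv F) ≠ 0 → FlexAt φ := by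
    intro φ hv
    apply FlexAt.of_aut (sw F)
    refine flex_u hF hz _ ?_
    change φ (sw F (gu F)) ≠ 0
    rw [sw_u]
    exact hv
  by_cases hv0 : φ (gv F) = 0
  swap
  · exact hv φ hv0
  have h0 : MvPolynomial.eval (fun j => φ (gz F j)) F = 0 := by
    rw [← phi_pz, ← rel, map_mul, hu, zero_mul]
  obtain ⟨j, hj⟩ := hF _ h0
  obtain ⟨w, hw⟩ : ∃ w : Fin n → ℂ, w = Pi.single j 1 := ⟨_, rfl⟩
  apply FlexAt.of_aut (expA (Dw F w) (Dw_LN F w) 1)
  apply hv
  change φ (expA (Dw F w) (Dw_LN F w) 1 (gv F)) ≠ 0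
  obtain ⟨N, hN⟩ := Dw_LN F w (gv F)
  rw [expA_apply, expE_apply (Dw F w) (Dw_LN F w) 1 (gv F) (N := N + 2)
    (iter_le hN (by omega)), Finset.sum_range_succ', Finset.sum_range_succ', map_add, map_add,
    map_sum]
  have hs : ∑ x ∈ range N, φ ((1 ^ (x + 1 + 1) * ((x + 1 + 1).factorial : ℂ)⁻¹) •
      (⇑(Dw F w))^[x + 1 + 1] (gv F)) = 0 := by
    refine Finset.sum_eq_zero fun k _ => ?_
    obtain ⟨y, hy⟩ := Dw_iter (F := F) w k
    rw [map_smul, hy, map_mul, hu, zero_mul, smul_zero]
  rw [hs]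
  have e1 : φ (Dw F w (gv F)) = MvPolynomial.eval (fun j => φ (gz F j)) (MvPolynomial.pderiv j F) := by
    rw [Dw_v, Finset.sum_eq_single j]
    · rw [hw, Pi.single_eq_same, map_one, mul_one, phi_pz]
    · intro b _ hb
      rw [hw, Pi.single_eq_of_ne hb, map_zero, mul_zero]
    · intro hb
      exact absurd (Finset.mem_univ j) hb
  simp only [zero_add, pow_one, Nat.factorial_one, Nat.cast_one, inv_one, mul_one, one_smul,
    Function.iterate_one, pow_zero, Nat.factorial_zero, Function.iterate_zero, id_eq, hv0,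
    add_zero]
  rw [e1]
  exact hj

end susp

theorem hTF : TgtF := fun _ _ hF hz => flexible_mv fun φ => flexUV hF hz φ

end

end Pool.Agent.Helper7.FX
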